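import Mathlib

/-!
Definitions for ranks on bounded Baire class 1 functions.
-/

namespace Pool.Agent.P.MP_12cd8a_lc

open Ordinal Filter Topology

/-- `θ ≲ θ'`: for every `1 ≤ η < ω₁`, `θ' ≤ ω ^ η` implies `θ ≤ ω ^ η`. -/
def Lesssim (θ θ' : Ordinal.{0}) : Prop :=
  ∀ η : Ordinal.{0}, 1 ≤ η → η < Ordinal.omega 1 → θ' ≤ Ordinal.omega0 ^ η → θ ≤ Ordinal.omega0 ^ η

/-- `θ ≈ θ'`. -/
def Approx (θ θ' : Ordinal.{0}) : Prop := Lesssim θ θ' ∧ Lesssim θ' θ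

/-- bounded and of Baire class 1 (a pointwise limit of a sequence of continuous functions) -/
def BoundedBaireOne {X : Type*} [TopologicalSpace X] (f : X → ℝ) : Prop :=
  (∃ M : ℝ, ∀ x, |f x| ≤ M) ∧
  ∃ g : ℕ → X → ℝ, (∀ n, Continuous (g n)) ∧ ∀ x, Tendsto (fun n => g n x) atTop (𝓝 (f x))

/-- `F` is a continuous decreasing sequence of closed sets of length `l`, starting with the whole
space, extended by the empty set from `l` on. -/
def IsContSeq {X : Type*} [TopologicalSpace X] (l : Ordinal.{0}) (F : Ordinal.{0} → Set X) : Prop :=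
  (∀ η, IsClosed (F η)) ∧ Antitone F ∧ F 0 = Set.univ ∧ (∀ η, l ≤ η → F η = ∅) ∧
  (∀ η, η < l → Order.IsSuccLimit η → F η = ⋂ θ < η, F θ) ∧
  (Order.IsSuccLimit l → ⋂ η < l, F η = ∅)

/-- the transfinite difference: union of `F η \ F (η + 1)` over even `η < l` -/
def transDiff {X : Type*} (l : Ordinal.{0}) (F : Ordinal.{0} → Set X) : Set X :=
  ⋃ η < l, ⋃ (_ : ∃ θ : Ordinal.{0}, η = 2 * θ), F η \ F (η + 1)

/-- `α₁(B, C)` -/
noncomputable def alphaSets {X : Type*} [TopologicalSpace X] (B C : Set X) : Ordinal.{0} :=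
  sInf {l : Ordinal.{0} | ∃ F : Ordinal.{0} → Set X,
    IsContSeq l F ∧ B ⊆ transDiff l F ∧ transDiff l F ∩ C = ∅}

/-- `α₁(f)`, the supremum over rationals `p < q` of `α₁({f ≤ p}, {f ≥ q})` -/
noncomputable def alphaFun {X : Type*} [TopologicalSpace X] (f : X → ℝ) : Ordinal.{0} :=
  ⨆ pq : {pq : ℚ × ℚ // pq.1 < pq.2},
    alphaSets {x | f x ≤ (pq.1.1 : ℝ)} {x | (pq.1.2 : ℝ) ≤ f x}

end Pool.Agent.P.MP_12cd8a_lc
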