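import Pool.Agent.P.MP_12cd8a_lc.Defs

/-!
The separation derivative and its relation with transfinite differences.
-/

namespace Pool.Agent.P.MP_12cd8a_lc

open Ordinal Filter Topology Set

variable {X : Type*} [TopologicalSpace X]

/-- iterated separation derivative -/
noncomputable def D (B C : Set X) : Ordinal.{0} → Set X :=
  (wellFounded_lt (α := Ordinal.{0})).fix fun θ ih =>
    {x | ∀ (ι : Ordinal.{0}) (h : ι < θ), x ∈ closure (ih ι h ∩ B) ∧ x ∈ closure (ih ι h ∩ C)}

lemma mem_D {B C : Set X} {θ : Ordinal.{0}} {x : X} :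
    x ∈ D B C θ ↔ ∀ ι < θ, x ∈ closure (D B C ι ∩ B) ∧ x ∈ closure (D B C ι ∩ C) := by
  conv_lhs => rw [D, WellFounded.fix_eq]
  rfl

lemma isClosed_D (B C : Set X) (θ : Ordinal.{0}) : IsClosed (D B C θ) := by
  have : D B C θ = ⋂ ι < θ, (closure (D B C ι ∩ B) ∩ closure (D B C ι ∩ C)) := by
    ext x
    simp only [mem_D (θ := θ), mem_iInter, mem_inter_iff]
  rw [this]
  exact isClosed_biInter fun _ _ => isClosed_closure.inter isClosed_closure

lemma D_anti (B C : Set X) {θ θ' : Ordinal.{0}} (h : θ ≤ θ') : D B C θ' ⊆ D B C θ :=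
  fun _ hx => mem_D.mpr fun ι hι => mem_D.mp hx ι (hι.trans_le h)

lemma D_mono {B C B' C' : Set X} (hB : B ⊆ B') (hC : C ⊆ C') (θ : Ordinal.{0}) :
    D B C θ ⊆ D B' C' θ := by
  induction θ using WellFoundedLT.induction with
  | ind θ ih =>
    intro x hx
    refine mem_D.mpr fun ι hι => ?_
    obtain ⟨h1, h2⟩ := mem_D.mp hx ι hι
    exact ⟨closure_mono (inter_subset_inter (ih ι hι) hB) h1,
      closure_mono (inter_subset_inter (ih ι hι) hC) h2⟩

lemma D_symm (B C : Set X) (θ : Ordinal.{0}) : D B C θ ⊆ D C B θ := by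
  induction θ using WellFoundedLT.induction with
  | ind θ ih =>
    intro x hx
    refine mem_D.mpr fun ι hι => ?_
    obtain ⟨h1, h2⟩ := mem_D.mp hx ι hι
    exact ⟨closure_mono (inter_subset_inter_left _ (ih ι hι)) h2,
      closure_mono (inter_subset_inter_left _ (ih ι hι)) h1⟩

lemma closure_D_sub (B C Z : Set X) (θ : Ordinal.{0}) : closure (D B C θ ∩ Z) ⊆ D B C θ :=
  closure_minimal inter_subset_left (isClosed_D B C θ)

lemma mem_D_succ {B C : Set X} {θ : Ordinal.{0}} {x : X} :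
    x ∈ D B C (θ + 1) ↔ x ∈ closure (D B C θ ∩ B) ∧ x ∈ closure (D B C θ ∩ C) := by
  refine ⟨fun h => mem_D.mp h θ (lt_add_one θ), fun h => mem_D.mpr fun ι hι => ?_⟩
  rcases (Order.lt_add_one_iff.mp hι).lt_or_eq with h1 | rfl
  · exact mem_D.mp (closure_D_sub B C B θ h.1) ι h1
  · exact h

lemma two_mul_le_iff {a b : Ordinal.{0}} : 2 * a ≤ 2 * b ↔ a ≤ b :=
  mul_le_mul_iff_right₀ (by norm_num)

lemma two_mul_lt_iff {a b : Ordinal.{0}} : 2 * a < 2 * b ↔ a < b :=
  mul_lt_mul_iff_right₀ (by norm_num)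

lemma two_mul_succ (a : Ordinal.{0}) : 2 * (a + 1) = 2 * a + 1 + 1 := by
  rw [mul_add, mul_one, add_assoc, one_add_one_eq_two]

lemma le_of_two_mul_le_succ {a b : Ordinal.{0}} (h : 2 * a ≤ 2 * b + 1) : a ≤ b := by
  by_contra hab
  push Not at hab
  have h1 : b + 1 ≤ a := Order.add_one_le_of_lt hab
  have h2 := two_mul_le_iff.mpr h1
  rw [two_mul_succ] at h2
  exact absurd (h2.trans h) (not_le.mpr (lt_add_one _))

lemma not_limit_succ (a : Ordinal.{0}) : ¬ Order.IsSuccLimit (a + 1) := by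
  rw [← Order.succ_eq_add_one]
  exact Order.not_isSuccLimit_succ a

/-- from an empty derivative to a separating transfinite difference -/
lemma exists_seq_of_D_empty {B C : Set X} {l : Ordinal.{0}} (hl : 2 * l = l)
    (hD : D B C l = ∅) :
    ∃ F : Ordinal.{0} → Set X, IsContSeq l F ∧ B ⊆ transDiff l F ∧ transDiff l F ∩ C = ∅ := by
  set F : Ordinal.{0} → Set X := fun ζ =>
    {x | (∀ ι, 2 * ι ≤ ζ → x ∈ D B C ι) ∧ ∀ ι, 2 * ι + 1 ≤ ζ → x ∈ closure (D B C ι ∩ C)} with hF
  have hanti : Antitone F := fun a b hab x hx =>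
    ⟨fun ι h => hx.1 ι (h.trans hab), fun ι h => hx.2 ι (h.trans hab)⟩
  have heven : ∀ θ, F (2 * θ) = D B C θ := by
    intro θ
    ext x
    refine ⟨fun hx => hx.1 θ le_rfl, fun hx => ⟨fun ι h => D_anti B C (two_mul_le_iff.mp h) hx,
      fun ι h => (mem_D.mp hx ι ?_).2⟩⟩
    exact two_mul_lt_iff.mp ((lt_add_one _).trans_le h)
  have hempty : ∀ η, l ≤ η → F η = ∅ := by
    intro η hη
    refine eq_empty_of_subset_empty ?_
    rw [← hD, ← heven, hl]
    exact hanti hη
  have hcont : ∀ η, Order.IsSuccLimit η → F η = ⋂ θ < η, F θ := by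
    intro η hη
    refine Subset.antisymm (subset_iInter₂ fun θ hθ => hanti hθ.le) fun x hx => ?_
    rw [mem_iInter₂] at hx
    refine ⟨fun ι h => ?_, fun ι h => ?_⟩
    · refine mem_D.mpr fun κ hκ => ?_
      have h1 : 2 * (κ + 1) ≤ η := (two_mul_le_iff.mpr (Order.add_one_le_of_lt hκ)).trans h
      have h2 : 2 * (κ + 1) < η := by
        refine lt_of_le_of_ne h1 fun h3 => ?_
        rw [two_mul_succ] at h3
        exact not_limit_succ _ (h3 ▸ hη)
      have h3 := hx _ h2
      rw [heven] at h3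
      exact mem_D_succ.mp h3
    · have h2 : 2 * ι + 1 < η := lt_of_le_of_ne h fun h3 => not_limit_succ _ (h3 ▸ hη)
      exact (hx _ h2).2 ι le_rfl
  refine ⟨F, ⟨fun η => ?_, hanti, ?_, hempty, fun η _ hη => hcont η hη, fun h => ?_⟩, ?_, ?_⟩
  · have : F η = (⋂ ι, ⋂ (_ : 2 * ι ≤ η), D B C ι) ∩
        ⋂ ι, ⋂ (_ : 2 * ι + 1 ≤ η), closure (D B C ι ∩ C) := by
      ext x
      simp only [hF, mem_ofPred_eq, mem_inter_iff, mem_iInter]
    rw [this]
    exact (isClosed_iInter fun _ => isClosed_iInter fun _ => isClosed_D _ _ _).inter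
      (isClosed_iInter fun _ => isClosed_iInter fun _ => isClosed_closure)
  · have := heven 0
    rw [mul_zero] at this
    rw [this]
    exact eq_univ_of_forall fun x => mem_D.mpr fun ι h => absurd h (not_lt_bot)
  · rw [← hcont l h]; exact hempty l le_rfl
  · intro x hx
    have hex : ∃ θ, x ∉ D B C θ := ⟨l, by rw [hD]; exact notMem_empty x⟩
    obtain ⟨θ, hθ, hmin⟩ := (wellFounded_lt (α := Ordinal.{0})).has_min {θ | x ∉ D B C θ} hex
    have hθl : θ ≤ l := by
      by_contra h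
      exact hmin l (by rw [mem_ofPred_eq, hD]; exact notMem_empty x) (not_le.mp h)
    rw [mem_ofPred_eq, mem_D] at hθ
    push Not at hθ
    obtain ⟨ι, hι, hx2⟩ := hθ
    have hxι : x ∈ D B C ι := by
      by_contra h
      exact hmin ι h hι
    have hx3 := hx2 (subset_closure ⟨hxι, hx⟩)
    simp only [transDiff, mem_iUnion]
    refine ⟨2 * ι, ?_, ⟨ι, rfl⟩, by rw [heven]; exact hxι, fun h => hx3 (h.2 ι le_rfl)⟩
    rw [← hl]
    exact two_mul_lt_iff.mpr (hι.trans_le hθl)
  · refine eq_empty_of_forall_notMem fun x hx => ?_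
    obtain ⟨hx, hxC⟩ := hx
    simp only [transDiff, mem_iUnion] at hx
    obtain ⟨η, -, ⟨θ, rfl⟩, hx1, hx2⟩ := hx
    rw [heven] at hx1
    refine hx2 ⟨fun ι h => D_anti B C (le_of_two_mul_le_succ h) hx1, fun ι h => ?_⟩
    exact subset_closure
      ⟨D_anti B C (le_of_two_mul_le_succ ((lt_add_one _).le.trans h)) hx1, hxC⟩

lemma IsContSeq.cont {l : Ordinal.{0}} {F : Ordinal.{0} → Set X} (h : IsContSeq l F)
    {η : Ordinal.{0}} (hη : Order.IsSuccLimit η) {x : X} (hx : ∀ θ < η, x ∈ F θ) : x ∈ F η := by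
  obtain ⟨-, -, -, h4, h5, h6⟩ := h
  rcases lt_trichotomy η l with h | rfl | h
  · rw [h5 η h hη]; exact mem_iInter₂.mpr hx
  · have := h6 hη
    have h7 : x ∈ ⋂ θ < η, F θ := mem_iInter₂.mpr hx
    rw [this] at h7
    exact absurd h7 (notMem_empty x)
  · have := hx l h
    rw [h4 l le_rfl] at this
    exact absurd this (notMem_empty x)

omit [TopologicalSpace X] in
lemma layer_unique {F : Ordinal.{0} → Set X} (h : Antitone F) {a b : Ordinal.{0}} {x : X}
    (ha : x ∈ F a \ F (a + 1)) (hb : x ∈ F b \ F (b + 1)) : a = b := by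
  rcases lt_trichotomy a b with h1 | h1 | h1
  · exact absurd (h (Order.add_one_le_of_lt h1) hb.1) ha.2
  · exact h1
  · exact absurd (h (Order.add_one_le_of_lt h1) ha.1) hb.2

lemma IsContSeq.exists_layer {l : Ordinal.{0}} {F : Ordinal.{0} → Set X} (h : IsContSeq l F)
    (x : X) : ∃ κ < l, x ∈ F κ \ F (κ + 1) := by
  have hex : ∃ θ, x ∉ F θ := ⟨l, by rw [h.2.2.2.1 l le_rfl]; exact notMem_empty x⟩
  obtain ⟨θ, hθ, hmin⟩ := (wellFounded_lt (α := Ordinal.{0})).has_min {θ | x ∉ F θ} hex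
  have hmin' : ∀ ι < θ, x ∈ F ι := fun ι hι => by
    by_contra h1
    exact hmin ι h1 hι
  rcases Ordinal.zero_or_succ_or_isSuccLimit θ with rfl | ⟨κ, rfl⟩ | hlim
  · exact absurd (by rw [h.2.2.1]; exact mem_univ x) hθ
  · have h1 := hmin' κ (Order.lt_succ κ)
    refine ⟨κ, ?_, h1, hθ⟩
    by_contra h2
    rw [h.2.2.2.1 κ (not_lt.mp h2)] at h1
    exact notMem_empty x h1
  · exact absurd (h.cont hlim hmin') hθ

/-- a separating transfinite difference contains the derivatives -/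
lemma D_subset_seq {B C : Set X} {l : Ordinal.{0}} {F : Ordinal.{0} → Set X} (h : IsContSeq l F)
    (hB : B ⊆ transDiff l F) (hC : transDiff l F ∩ C = ∅) (θ : Ordinal.{0}) :
    D B C θ ⊆ F θ := by
  induction θ using WellFoundedLT.induction with
  | ind θ ih =>
    intro x hx
    rcases Ordinal.zero_or_succ_or_isSuccLimit θ with rfl | ⟨κ, rfl⟩ | hlim
    · rw [h.2.2.1]; exact mem_univ x
    · have hκ := ih κ (Order.lt_succ κ)
      rw [Order.succ_eq_add_one] at hx ⊢
      obtain ⟨h1, h2⟩ := mem_D_succ.mp hx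
      by_cases hev : ∃ θ : Ordinal.{0}, κ = 2 * θ
      · refine closure_minimal (fun y hy => ?_) (h.1 _) h2
        by_contra hy2
        have hy1 := hκ hy.1
        have hκl : κ < l := by
          by_contra h3
          rw [h.2.2.2.1 κ (not_lt.mp h3)] at hy1
          exact notMem_empty y hy1
        have : y ∈ transDiff l F ∩ C := by
          refine ⟨?_, hy.2⟩
          simp only [transDiff, mem_iUnion]
          exact ⟨κ, hκl, hev, hy1, hy2⟩
        rw [hC] at this
        exact notMem_empty y this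
      · refine closure_minimal (fun y hy => ?_) (h.1 _) h1
        by_contra hy2
        have hy3 := hB hy.2
        simp only [transDiff, mem_iUnion] at hy3
        obtain ⟨η, -, hη, hy4⟩ := hy3
        have := layer_unique h.2.1 hy4 ⟨hκ hy.1, hy2⟩
        exact hev (this ▸ hη)
    · exact h.cont hlim fun ι hι => ih ι hι (D_anti B C hι.le hx)

lemma D_empty_of_seq {B C : Set X} {l : Ordinal.{0}} {F : Ordinal.{0} → Set X} (h : IsContSeq l F)
    (hB : B ⊆ transDiff l F) (hC : transDiff l F ∩ C = ∅) : D B C l = ∅ := by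
  refine eq_empty_of_subset_empty ?_
  rw [← h.2.2.2.1 l le_rfl]
  exact D_subset_seq h hB hC l

lemma two_mul_omega0_opow {η : Ordinal.{0}} (hη : 1 ≤ η) : 2 * ω ^ η = ω ^ η := by
  rw [← Ordinal.add_sub_cancel_of_le hη, opow_add, opow_one, ← mul_assoc,
    mul_omega0 (by norm_num) (by exact_mod_cast natCast_lt_omega0 2)]

lemma alphaSets_le_of_D_empty {B C : Set X} {η : Ordinal.{0}} (hη : 1 ≤ η)
    (hD : D B C (ω ^ η) = ∅) : alphaSets B C ≤ ω ^ η :=
  csInf_le' (exists_seq_of_D_empty (two_mul_omega0_opow hη) hD)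

lemma exists_seq_alpha {B C : Set X} {θ : Ordinal.{0}} (hD : D B C θ = ∅) :
    ∃ F : Ordinal.{0} → Set X, IsContSeq (alphaSets B C) F ∧ B ⊆ transDiff (alphaSets B C) F ∧
      transDiff (alphaSets B C) F ∩ C = ∅ := by
  have h1 : D B C (ω ^ (θ + 1)) = ∅ := by
    refine eq_empty_of_subset_empty ?_
    rw [← hD]
    exact D_anti B C ((lt_add_one θ).le.trans (right_le_opow _ one_lt_omega0))
  exact csInf_mem (s := {l : Ordinal.{0} | ∃ F : Ordinal.{0} → Set X,
    IsContSeq l F ∧ B ⊆ transDiff l F ∧ transDiff l F ∩ C = ∅})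
    ⟨_, exists_seq_of_D_empty (two_mul_omega0_opow (by simp)) h1⟩

lemma countable_Iio {l : Ordinal.{0}} (hl : l < Ordinal.omega 1) : (Iio l).Countable := by
  rw [← Cardinal.le_aleph0_iff_set_countable, Cardinal.mk_Iio_ordinal, Cardinal.lift_le_aleph0]
  rw [← Cardinal.ord_aleph, Cardinal.lt_ord, ← Cardinal.succ_aleph0] at hl
  exact Order.lt_succ_iff.mp hl

lemma omega0_opow_lt {η : Ordinal.{0}} (hη : η < Ordinal.omega 1) : ω ^ η < Ordinal.omega 1 :=
  isPrincipal_opow_omega 1 omega0_lt_omega_one hη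

end Pool.Agent.P.MP_12cd8a_lc
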