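import Pool.Agent.P.MP_12cd8a_lc.Top

/-!
Every rank with properties (P1)-(P4) agrees essentially with the separation rank.
-/

namespace Pool.Agent.P.MP_12cd8a_lc

open Ordinal Filter Topology Set Metric

section main
variable {X : Type*} [MetricSpace X] [CompleteSpace X] [SecondCountableTopology X]
  {ρ : (X → ℝ) → Ordinal.{0}}
  (P1 : ∀ A : Set X, IsGδ A → IsGδ Aᶜ →
    Approx (ρ (A.indicator fun _ => (1 : ℝ))) (alphaSets A Aᶜ))
  (P2a : ∀ (c : ℝ) (f : X → ℝ), c ≠ 0 → BoundedBaireOne f → Approx (ρ (c • f)) (ρ f))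
  (P2b : ∀ f g : X → ℝ, BoundedBaireOne f → BoundedBaireOne g →
    Lesssim (ρ (f + g)) (max (ρ f) (ρ g)))
  (P3 : ∀ (fs : ℕ → X → ℝ) (f : X → ℝ), (∀ n, BoundedBaireOne (fs n)) → BoundedBaireOne f →
    TendstoUniformly fs f atTop → Lesssim (ρ f) (⨆ n, ρ (fs n)))
  (P4 : ∀ (h : ℝ → ℝ) (K : NNReal) (f : X → ℝ), LipschitzWith K h → BoundedBaireOne f →
    Lesssim (ρ (h ∘ f)) (ρ f))

lemma three_le_opow {η : Ordinal.{0}} (hη : 1 ≤ η) : 3 ≤ ω ^ η := by
  have h1 : (3 : Ordinal.{0}) ≤ ω := by exact_mod_cast (natCast_lt_omega0 3).le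
  refine h1.trans ?_
  conv_lhs => rw [← opow_one ω]
  exact opow_le_opow_right omega0_pos hη

omit [MetricSpace X] [CompleteSpace X] [SecondCountableTopology X] in
lemma le_sets_disj {f : X → ℝ} {p q : ℝ} (h : p < q) :
    {x | f x ≤ p} ∩ {x | q ≤ f x} = ∅ :=
  eq_empty_of_forall_notMem fun x hx => by
    have h1 : f x ≤ p := hx.1
    have h2 : q ≤ f x := hx.2
    linarith

include P1 in
omit [CompleteSpace X] [SecondCountableTopology X] in
lemma rho_almost_closed {η : Ordinal.{0}} (h1 : 1 ≤ η) (h2 : η < Ordinal.omega 1) (K : Set X) (y : X)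
    (h : IsClosed (K ∪ {y})) : ρ (K.indicator fun _ => (1 : ℝ)) ≤ ω ^ η := by
  obtain ⟨g1, g2⟩ := isGδ_of_almost_closed K y h
  refine (P1 K g1 g2).1 η h1 h2 (alphaSets_le_of_D_empty h1 ?_)
  refine eq_empty_of_subset_empty ?_
  rw [← D_three_empty K y h]
  exact D_anti _ _ (three_le_opow h1)

include P1 P2b P4 in
lemma alpha_le_rho {f : X → ℝ} (hf : BoundedBaireOne f) : Lesssim (alphaFun f) (ρ f) := by
  intro η h1 h2 hρ
  refine Ordinal.iSup_le fun pq => ?_
  obtain ⟨⟨p, q⟩, hpq⟩ := pq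
  have hpq' : (p : ℝ) < q := by exact_mod_cast hpq
  set B : Set X := {x | f x ≤ (p : ℝ)} with hB
  set C : Set X := {x | (q : ℝ) ≤ f x} with hC
  have hBC : B ∩ C = ∅ := le_sets_disj hpq'
  refine alphaSets_le_of_D_empty h1 ?_
  by_contra hne
  obtain ⟨x, hx⟩ := nonempty_iff_ne_empty.mpr hne
  obtain ⟨K, hK1, -, hK3, hK4⟩ := exists_witness B C _ (omega0_opow_lt h2) x hx 1 one_pos
  obtain ⟨g1, g2⟩ := isGδ_of_almost_closed K x hK3
  have hKρ := rho_almost_closed P1 h1 h2 K x hK3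
  have hKb := bb1_indicator g1 g2
  have hd : (0 : ℝ) < q - p := sub_pos.mpr hpq'
  set h : ℝ → ℝ := fun t => min (max ((t - p) / (q - p)) 0) 1 with hh
  have hlip : LipschitzWith (Real.toNNReal (1 / (q - p))) h := by
    refine (LipschitzWith.max_const ?_ 0).min_const 1
    refine LipschitzWith.of_dist_le_mul fun s t => le_of_eq ?_
    rw [Real.dist_eq, Real.dist_eq, ← sub_div, abs_div, abs_of_pos hd,
      Real.coe_toNNReal _ (by positivity)]
    rw [show s - p - (t - p) = s - t by ring]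
    ring
  set h' : ℝ → ℝ := fun t => max (t - 1) 0 with hh'
  have hlip' : LipschitzWith 1 h' := by
    refine LipschitzWith.max_const ?_ 0
    refine LipschitzWith.of_dist_le_mul fun s t => le_of_eq ?_
    rw [Real.dist_eq, Real.dist_eq]
    simp
  have e : h' ∘ (h ∘ f + K.indicator fun _ => (1 : ℝ)) = (C ∩ K).indicator fun _ => (1 : ℝ) := by
    funext w
    simp only [Function.comp, Pi.add_apply, hh, hh']
    by_cases hw : w ∈ K
    · rw [indicator_of_mem hw, add_sub_cancel_right]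
      rcases hK1 hw with hwB | hwC
      · have hwC : w ∉ C ∩ K := fun h => notMem_empty w (hBC ▸ ⟨hwB, h.1⟩)
        rw [indicator_of_notMem hwC]
        have : (f w - p) / (q - p) ≤ 0 := div_nonpos_of_nonpos_of_nonneg (sub_nonpos.mpr hwB) hd.le
        rw [max_eq_right this]
        simp
      · rw [indicator_of_mem (show w ∈ C ∩ K from ⟨hwC, hw⟩)]
        have hq : (q : ℝ) ≤ f w := hwC
        have : 1 ≤ (f w - p) / (q - p) := by rw [le_div_iff₀ hd]; linarith
        rw [min_eq_right (le_max_of_le_left this)]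
        simp
    · rw [indicator_of_notMem hw, indicator_of_notMem (fun h : w ∈ C ∩ K => hw h.2)]
      have := min_le_right (max ((f w - p) / (q - p)) 0) 1
      exact max_eq_right (by linarith)
  have r1 : ρ (h ∘ f) ≤ ω ^ η := P4 h _ f hlip hf η h1 h2 hρ
  have r2 : ρ (h ∘ f + K.indicator fun _ => (1 : ℝ)) ≤ ω ^ η :=
    P2b _ _ (hf.comp hlip) hKb η h1 h2 (max_le r1 hKρ)
  have r3 := P4 h' _ _ hlip' ((hf.comp hlip).add hKb) η h1 h2 r2
  rw [e] at r3
  have gC : IsGδ (C ∩ K) := (hf.isGδ_ge q).inter g1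
  have gC' : IsGδ (C ∩ K)ᶜ := by
    have : (C ∩ K)ᶜ = Kᶜ ∪ B := by
      ext w
      simp only [mem_compl_iff, mem_inter_iff, mem_union]
      constructor
      · intro hw
        by_cases hwK : w ∈ K
        · rcases hK1 hwK with h3 | h3
          · exact Or.inr h3
          · exact absurd ⟨h3, hwK⟩ hw
        · exact Or.inl hwK
      · rintro (h3 | h3) h4
        · exact h3 h4.2
        · exact notMem_empty w (hBC ▸ ⟨h3, h4.1⟩)
    rw [this]
    exact g2.union (hf.isGδ_le p)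
  have r4 := (P1 _ gC gC').2 η h1 h2 r3
  obtain ⟨θ, hθ⟩ := exists_D_empty gC gC' (inter_compl_self _)
  obtain ⟨F, hF1, hF2, hF3⟩ := exists_seq_alpha hθ
  have r5 := D_empty_of_seq hF1 hF2 hF3
  have hsub : B ∩ K ⊆ (C ∩ K)ᶜ := fun w hw h4 => notMem_empty w (hBC ▸ ⟨hw.1, h4.1⟩)
  have r6 := D_anti _ _ r4 (D_mono subset_rfl hsub _ (D_symm _ _ _ hK4))
  rw [r5] at r6
  exact notMem_empty x r6

include P1 P2b in
omit [CompleteSpace X] [SecondCountableTopology X] in
lemma rho_sum {η : Ordinal.{0}} (h1 : 1 ≤ η) (h2 : η < Ordinal.omega 1) (g : ℕ → X → ℝ)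
    (hg : ∀ i, BoundedBaireOne (g i)) (hρ : ∀ i, ρ (g i) ≤ ω ^ η) (n : ℕ) :
    BoundedBaireOne (∑ i ∈ Finset.range n, g i) ∧ ρ (∑ i ∈ Finset.range n, g i) ≤ ω ^ η := by
  induction n with
  | zero =>
    have e : (∑ i ∈ Finset.range 0, g i) = (∅ : Set X).indicator fun _ => (1 : ℝ) := by
      funext x; simp
    rw [e]
    have g1 : IsGδ (∅ : Set X) := IsGδ.empty
    have g2 : IsGδ (∅ : Set X)ᶜ := isClosed_empty.isOpen_compl.isGδ
    refine ⟨bb1_indicator g1 g2, (P1 _ g1 g2).1 η h1 h2 (alphaSets_le_of_D_empty h1 ?_)⟩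
    refine eq_empty_of_forall_notMem fun x hx => ?_
    have := (mem_D.mp hx 0 (opow_pos _ omega0_pos)).1
    simp at this
  | succ n ih =>
    rw [Finset.sum_range_succ]
    exact ⟨ih.1.add (hg n), P2b _ _ ih.1 (hg n) η h1 h2 (max_le ih.2 (hρ n))⟩

lemma count_est (v : ℝ) (n L : ℕ) (hn : 0 < n) (t : ℕ → ℝ) (h01 : ∀ j, t j = 0 ∨ t j = 1)
    (h1 : ∀ j : ℕ, v ≤ (j : ℝ) / n → t j = 1) (h0 : ∀ j : ℕ, ((j : ℝ) + 1) / n ≤ v → t j = 0)
    (hv0 : 0 ≤ v) (hvL : v ≤ L / n) :
    |v - (L - ∑ j ∈ Finset.range L, t j) / n| ≤ 1 / n := by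
  have hn' : (0 : ℝ) < n := by exact_mod_cast hn
  have key : ∀ m : ℕ, min (v * n) m - 1 ≤ m - ∑ j ∈ Finset.range m, t j ∧
      m - ∑ j ∈ Finset.range m, t j ≤ min (v * n + 1) m := by
    intro m
    induction m with
    | zero =>
      have : 0 ≤ v * n := by positivity
      simp only [Nat.cast_zero, Finset.range_zero, Finset.sum_empty, _root_.sub_zero]
      exact ⟨by linarith [min_le_right (v * n) 0], le_min (by linarith) le_rfl⟩
    | succ m ih =>
      rw [Finset.sum_range_succ]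
      push_cast
      obtain ⟨i1, i2⟩ := ih
      have a1 := min_le_left (v * n + 1) (m : ℝ)
      have a2 := min_le_right (v * n + 1) (m : ℝ)
      have a3 := min_le_left (v * n) ((m : ℝ) + 1)
      have a4 := min_le_right (v * n) ((m : ℝ) + 1)
      rcases h01 m with h | h
      · have hv : (m : ℝ) < v * n := by
          by_contra h3
          have := h1 m (by rw [le_div_iff₀ hn']; exact not_lt.mp h3)
          linarith
        rw [min_eq_right hv.le] at i1
        exact ⟨by linarith, le_min (by linarith) (by linarith)⟩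
      · have hv : v * n < (m : ℝ) + 1 := by
          by_contra h3
          have := h0 m (by rw [div_le_iff₀ hn']; exact not_lt.mp h3)
          linarith
        refine ⟨?_, le_min (by linarith) (by linarith)⟩
        rcases le_total (v * n) m with h4 | h4
        · rw [min_eq_left h4] at i1
          linarith
        · have : ∑ j ∈ Finset.range m, t j = 0 := by
            refine Finset.sum_eq_zero fun j hj => h0 j ?_
            have : (j : ℝ) + 1 ≤ m := by exact_mod_cast Finset.mem_range.mp hj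
            rw [div_le_iff₀ hn']
            linarith
          rw [this]
          linarith
  obtain ⟨k1, k2⟩ := key L
  rw [le_div_iff₀ hn'] at hvL
  rw [min_eq_left hvL] at k1
  have k3 := k2.trans (min_le_left _ _)
  rw [show v - (L - ∑ j ∈ Finset.range L, t j) / n =
    (v * n - (L - ∑ j ∈ Finset.range L, t j)) / n by field_simp, abs_div, abs_of_pos hn']
  gcongr
  exact abs_le.mpr ⟨by linarith, by linarith⟩

include P1 P2a P2b P3 in
lemma rho_le_alpha {f : X → ℝ} (hf : BoundedBaireOne f) : Lesssim (ρ f) (alphaFun f) := by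
  intro η h1 h2 hα
  obtain ⟨M0, hM0⟩ := hf.1
  obtain ⟨M, hM⟩ := exists_nat_ge M0
  have sep : ∀ p q : ℚ, p < q → ∃ H : Set X, {x | f x ≤ (p : ℝ)} ⊆ H ∧
      H ∩ {x | (q : ℝ) ≤ f x} = ∅ ∧ BoundedBaireOne (H.indicator fun _ => (1 : ℝ)) ∧
      ρ (H.indicator fun _ => (1 : ℝ)) ≤ ω ^ η := by
    intro p q hpq
    have hle : alphaSets {x | f x ≤ (p : ℝ)} {x | (q : ℝ) ≤ f x} ≤ ω ^ η :=
      (Ordinal.le_iSup (fun pq : {pq : ℚ × ℚ // pq.1 < pq.2} =>
        alphaSets {x | f x ≤ (pq.1.1 : ℝ)} {x | (pq.1.2 : ℝ) ≤ f x}) ⟨(p, q), hpq⟩).trans hα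
    obtain ⟨θ, hθ⟩ := exists_D_empty (hf.isGδ_le p) (hf.isGδ_ge q)
      (le_sets_disj (by exact_mod_cast hpq))
    obtain ⟨F, hF1, hF2, hF3⟩ := exists_seq_alpha hθ
    obtain ⟨g1, g2⟩ := transDiff_isGδ (hle.trans_lt (omega0_opow_lt h2)) hF1
    refine ⟨_, hF2, hF3, bb1_indicator g1 g2, (P1 _ g1 g2).1 η h1 h2 (le_trans ?_ hle)⟩
    exact csInf_le' ⟨F, hF1, subset_rfl, inter_compl_self _⟩
  have one : BoundedBaireOne ((univ : Set X).indicator fun _ => (1 : ℝ)) ∧
      ρ ((univ : Set X).indicator fun _ => (1 : ℝ)) ≤ ω ^ η := by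
    have g1 : IsGδ (univ : Set X) := IsGδ.univ
    have g2 : IsGδ (univ : Set X)ᶜ := isClosed_univ.isOpen_compl.isGδ
    refine ⟨bb1_indicator g1 g2, (P1 _ g1 g2).1 η h1 h2 (alphaSets_le_of_D_empty h1 ?_)⟩
    refine eq_empty_of_forall_notMem fun x hx => ?_
    have := (mem_D.mp hx 0 (opow_pos _ omega0_pos)).2
    simp at this
  have approx : ∀ n : ℕ, ∃ g : X → ℝ, BoundedBaireOne g ∧ ρ g ≤ ω ^ η ∧
      ∀ x, |f x - g x| ≤ 1 / ((n : ℝ) + 1) := by
    intro n
    have hn : (0 : ℚ) < (n : ℚ) + 1 := by positivity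
    choose H hH1 hH2 hH3 hH4 using fun j : ℕ => sep ((j : ℚ) / (n + 1) - (M + 1))
      (((j : ℚ) + 1) / (n + 1) - (M + 1)) (by
        have : (j : ℚ) / (n + 1) < ((j : ℚ) + 1) / (n + 1) := by gcongr; linarith
        linarith)
    set L : ℕ := (2 * M + 3) * (n + 1) with hL
    obtain ⟨s1, s2⟩ := rho_sum P1 P2b h1 h2 (fun j => (H j).indicator fun _ => (1 : ℝ)) hH3 hH4 L
    have hc : (-(1 / ((n : ℝ) + 1))) ≠ 0 := by
      have : 0 < 1 / ((n : ℝ) + 1) := by positivity
      linarith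
    have hc2 : ((M : ℝ) + 2) ≠ 0 := by positivity
    refine ⟨(-(1 / ((n : ℝ) + 1))) • (∑ j ∈ Finset.range L, (H j).indicator fun _ => (1 : ℝ)) +
      ((M : ℝ) + 2) • ((univ : Set X).indicator fun _ => (1 : ℝ)), (s1.smul _).add (one.1.smul _),
      P2b _ _ (s1.smul _) (one.1.smul _) η h1 h2 (max_le ((P2a _ _ hc s1).1 η h1 h2 s2)
        ((P2a _ _ hc2 one.1).1 η h1 h2 one.2)), fun x => ?_⟩
    have hx := abs_le.mp ((hM0 x).trans hM)
    have hn' : (0 : ℝ) < (n : ℝ) + 1 := by positivity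
    have := count_est (f x + (M + 1)) (n + 1) L (Nat.succ_pos n)
      (fun j => (H j).indicator (fun _ => (1 : ℝ)) x)
      (fun j => by by_cases h : x ∈ H j <;> simp [h])
      (fun j hj => by
        refine indicator_of_mem (hH1 j ?_) _
        show f x ≤ _
        push_cast at hj ⊢
        linarith)
      (fun j hj => by
        refine indicator_of_notMem (fun h => notMem_empty x (hH2 j ▸ ⟨h, ?_⟩)) _
        show _ ≤ f x
        push_cast at hj ⊢
        linarith)
      (by linarith)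
      (by rw [hL]; push_cast; rw [mul_div_assoc, div_self hn'.ne']; linarith)
    push_cast at this
    refine le_trans (le_of_eq ?_) this
    congr 1
    simp only [Pi.add_apply, Pi.smul_apply, Finset.sum_apply, _root_.smul_eq_mul, indicator_univ]
    rw [hL]
    push_cast
    field_simp
    ring
  choose g hg1 hg2 hg3 using approx
  refine P3 g f hg1 hf ?_ η h1 h2 (Ordinal.iSup_le hg2)
  refine Metric.tendstoUniformly_iff.mpr fun ε hε => ?_
  obtain ⟨N, hN⟩ := exists_nat_one_div_lt hε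
  filter_upwards [eventually_ge_atTop N] with n hn x
  rw [Real.dist_eq]
  refine (hg3 n x).trans_lt (lt_of_le_of_lt ?_ hN)
  have : (N : ℝ) ≤ n := by exact_mod_cast hn
  gcongr

end main

theorem main {X : Type*} [TopologicalSpace X] [PolishSpace X] (ρ : (X → ℝ) → Ordinal.{0})
    (P1 : ∀ A : Set X, IsGδ A → IsGδ Aᶜ →
      Approx (ρ (A.indicator fun _ => (1 : ℝ))) (alphaSets A Aᶜ))
    (P2a : ∀ (c : ℝ) (f : X → ℝ), c ≠ 0 → BoundedBaireOne f → Approx (ρ (c • f)) (ρ f))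
    (P2b : ∀ f g : X → ℝ, BoundedBaireOne f → BoundedBaireOne g →
      Lesssim (ρ (f + g)) (max (ρ f) (ρ g)))
    (P3 : ∀ (fs : ℕ → X → ℝ) (f : X → ℝ), (∀ n, BoundedBaireOne (fs n)) → BoundedBaireOne f →
      TendstoUniformly fs f atTop → Lesssim (ρ f) (⨆ n, ρ (fs n)))
    (P4 : ∀ (h : ℝ → ℝ) (K : NNReal) (f : X → ℝ), LipschitzWith K h → BoundedBaireOne f →
      Lesssim (ρ (h ∘ f)) (ρ f))
    (f : X → ℝ) (hf : BoundedBaireOne f) : Approx (ρ f) (alphaFun f) := by
  let _ := TopologicalSpace.upgradeIsCompletelyMetrizable X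
  exact ⟨rho_le_alpha P1 P2a P2b P3 hf, alpha_le_rho P1 P2b P4 hf⟩

end Pool.Agent.P.MP_12cd8a_lc
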