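import Pool.Agent.P.MP_12cd8a_lc.Deriv

/-!
Topological lemmas: small witnesses for derivatives, Baire category, Baire class 1 functions.
-/

namespace Pool.Agent.P.MP_12cd8a_lc

open Ordinal Filter Topology Set Metric

section metric
variable {X : Type*} [MetricSpace X]

lemma isClosed_union_shrinking (y : X) (ε : ℝ) (Z : ℕ → Set X) (hZ : ∀ m, IsClosed (Z m))
    (hb : ∀ m, Z m ⊆ closedBall y (ε / (m + 1))) : IsClosed ((⋃ m, Z m) ∪ {y}) := by
  rw [← isOpen_compl_iff, isOpen_iff_mem_nhds]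
  intro z hz
  simp only [mem_compl_iff, mem_union, mem_iUnion, mem_singleton_iff, not_or, not_exists] at hz
  have hd : 0 < dist z y := dist_pos.mpr hz.2
  obtain ⟨N, hN⟩ := exists_nat_gt (ε / (dist z y / 2))
  have h1 : ball z (dist z y / 2) ∈ 𝓝 z := ball_mem_nhds z (by linarith)
  have h2 : ⋂ m ∈ Finset.range N, (Z m)ᶜ ∈ 𝓝 z :=
    (Filter.biInter_finset_mem _).mpr fun m _ => (hZ m).isOpen_compl.mem_nhds (hz.1 m)
  filter_upwards [h1, h2] with w hw1 hw2
  simp only [mem_compl_iff, mem_union, mem_iUnion, mem_singleton_iff, not_or, not_exists]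
  rw [mem_ball] at hw1
  have h3 : dist z y / 2 < dist w y := by
    have := dist_triangle z w y
    rw [dist_comm z w] at this
    linarith
  refine ⟨fun m hm => ?_, ?_⟩
  · by_cases hmN : m < N
    · exact (mem_iInter₂.mp hw2 m (Finset.mem_range.mpr hmN)) hm
    · have h4 := mem_closedBall.mp (hb m hm)
      have h5 : (N : ℝ) ≤ m := by exact_mod_cast not_lt.mp hmN
      rw [div_lt_iff₀ (by linarith)] at hN
      have h6 : ε / (m + 1) ≤ dist z y / 2 := by
        rw [div_le_iff₀ (by positivity)]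
        nlinarith
      linarith
  · rintro rfl
    simp at h3
    linarith

/-- small witnesses for membership in a countable derivative -/
lemma exists_witness (B C : Set X) (θ : Ordinal.{0}) (hθ : θ < Ordinal.omega 1) :
    ∀ y ∈ D B C θ, ∀ ε > 0, ∃ K : Set X, K ⊆ B ∪ C ∧ K ⊆ closedBall y ε ∧ IsClosed (K ∪ {y}) ∧
      y ∈ D (B ∩ K) (C ∩ K) θ := by
  induction θ using WellFoundedLT.induction with
  | ind θ ih =>
    intro y hy ε hε
    rcases eq_empty_or_nonempty (Iio θ) with h0 | h0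
    · refine ⟨∅, empty_subset _, empty_subset _, by simp, mem_D.mpr fun ι hι => ?_⟩
      have : ι ∈ Iio θ := hι
      rw [h0] at this
      exact absurd this (notMem_empty _)
    obtain ⟨e, he⟩ := (countable_Iio hθ).exists_eq_range h0
    have he1 : ∀ a, e a < θ := fun a => by
      have : e a ∈ Iio θ := he ▸ mem_range_self a
      exact this
    have step : ∀ (E : Set X), E ⊆ B ∪ C → ∀ ι < θ, y ∈ closure (D B C ι ∩ E) → ∀ δ > 0,
        ∃ (b : X) (Z : Set X), b ∈ E ∧ b ∈ Z ∧ Z ⊆ B ∪ C ∧ Z ⊆ closedBall y δ ∧ IsClosed Z ∧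
          b ∈ D (B ∩ Z) (C ∩ Z) ι := by
      intro E hE ι hι hyE δ hδ
      obtain ⟨b, hb, hbd⟩ := Metric.mem_closure_iff.mp hyE (δ / 2) (by linarith)
      obtain ⟨K, hK1, hK2, hK3, hK4⟩ := ih ι hι (hι.trans hθ) b hb.1 (δ / 2) (by linarith)
      refine ⟨b, K ∪ {b}, hb.2, Or.inr rfl, union_subset hK1 (singleton_subset_iff.mpr (hE hb.2)),
        ?_, hK3, D_mono (inter_subset_inter_right _ subset_union_left)
          (inter_subset_inter_right _ subset_union_left) ι hK4⟩
      rintro w (hw | rfl)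
      · have := mem_closedBall.mp (hK2 hw)
        have h2 := dist_triangle w b y
        rw [dist_comm b y] at h2
        exact mem_closedBall.mpr (by linarith)
      · rw [mem_closedBall, dist_comm]; linarith
    have hpos : ∀ m : ℕ, 0 < ε / ((m : ℝ) + 1) := fun m => by positivity
    choose b Zb hb1 hb2 hb3 hb4 hb5 hb6 using fun m : ℕ =>
      step B subset_union_left (e (Nat.unpair m).1) (he1 _) (mem_D.mp hy _ (he1 _)).1 _ (hpos m)
    choose c Zc hc1 hc2 hc3 hc4 hc5 hc6 using fun m : ℕ =>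
      step C subset_union_right (e (Nat.unpair m).1) (he1 _) (mem_D.mp hy _ (he1 _)).2 _ (hpos m)
    set K : Set X := ⋃ m, (Zb m ∪ Zc m) with hK
    have hKb : ∀ m, Zb m ⊆ K := fun m => subset_union_left.trans (subset_iUnion (fun m => Zb m ∪ Zc m) m)
    have hKc : ∀ m, Zc m ⊆ K := fun m => subset_union_right.trans (subset_iUnion (fun m => Zb m ∪ Zc m) m)
    refine ⟨K, iUnion_subset fun m => union_subset (hb3 m) (hc3 m), iUnion_subset fun m => ?_,
      isClosed_union_shrinking y ε _ (fun m => (hb5 m).union (hc5 m))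
        (fun m => union_subset (hb4 m) (hc4 m)), mem_D.mpr fun ι hι => ?_⟩
    · refine (union_subset (hb4 m) (hc4 m)).trans (closedBall_subset_closedBall ?_)
      exact div_le_self hε.le (by linarith [(Nat.cast_nonneg m : (0 : ℝ) ≤ m)])
    · obtain ⟨a, rfl⟩ : ι ∈ range e := he ▸ hι
      have small : ∀ δ > 0, ∃ m : ℕ, (Nat.unpair m).1 = a ∧ ε / ((m : ℝ) + 1) < δ := by
        intro δ hδ
        obtain ⟨N, hN⟩ := exists_nat_gt (ε / δ)
        refine ⟨Nat.pair a N, by simp, ?_⟩
        have h1 : (N : ℝ) ≤ (Nat.pair a N : ℕ) := by exact_mod_cast Nat.right_le_pair a N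
        rw [div_lt_iff₀ hδ] at hN
        rw [div_lt_iff₀ (by positivity)]
        nlinarith
      constructor
      · refine Metric.mem_closure_iff.mpr fun δ hδ => ?_
        obtain ⟨m, hm, hm2⟩ := small δ hδ
        refine ⟨b m, ⟨?_, hb1 m, hKb m (hb2 m)⟩, ?_⟩
        · rw [← hm]
          exact D_mono (inter_subset_inter_right _ (hKb m)) (inter_subset_inter_right _ (hKb m)) _
            (hb6 m)
        · have := mem_closedBall.mp (hb4 m (hb2 m))
          rw [dist_comm]; linarith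
      · refine Metric.mem_closure_iff.mpr fun δ hδ => ?_
        obtain ⟨m, hm, hm2⟩ := small δ hδ
        refine ⟨c m, ⟨?_, hc1 m, hKc m (hc2 m)⟩, ?_⟩
        · rw [← hm]
          exact D_mono (inter_subset_inter_right _ (hKc m)) (inter_subset_inter_right _ (hKc m)) _
            (hc6 m)
        · have := mem_closedBall.mp (hc4 m (hc2 m))
          rw [dist_comm]; linarith

/-- a set that is closed up to one point has finite rank -/
lemma D_three_empty (K : Set X) (y : X) (h : IsClosed (K ∪ {y})) : D K Kᶜ 3 = ∅ := by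
  have h1 : D K Kᶜ 1 ⊆ K ∪ {y} := by
    intro x hx
    have := (mem_D.mp hx 0 zero_lt_one).1
    exact closure_minimal (inter_subset_right.trans subset_union_left) h this
  have h2 : D K Kᶜ 2 ⊆ {y} := by
    intro x hx
    have := (mem_D.mp hx 1 (by norm_num)).2
    refine closure_minimal (fun w hw => ?_) isClosed_singleton this
    rcases h1 hw.1 with h3 | h3
    · exact absurd h3 hw.2
    · exact h3
  refine eq_empty_of_forall_notMem fun x hx => ?_
  obtain ⟨h3, h4⟩ := mem_D.mp hx 2 (by norm_num)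
  obtain ⟨a, ha⟩ := closure_nonempty_iff.mp ⟨x, h3⟩
  obtain ⟨b, hb⟩ := closure_nonempty_iff.mp ⟨x, h4⟩
  have h5 : a = y := h2 ha.1
  have h6 : b = y := h2 hb.1
  exact hb.2 (h6 ▸ h5 ▸ ha.2)

lemma isGδ_of_almost_closed (K : Set X) (y : X) (h : IsClosed (K ∪ {y})) : IsGδ K ∧ IsGδ Kᶜ := by
  by_cases hy : y ∈ K
  · rw [union_eq_self_of_subset_right (singleton_subset_iff.mpr hy)] at h
    exact ⟨h.isGδ, h.isOpen_compl.isGδ⟩
  · constructor
    · have : K = (K ∪ {y}) ∩ {y}ᶜ := by
        ext w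
        simp only [mem_inter_iff, mem_union, mem_singleton_iff, mem_compl_iff]
        constructor
        · intro hw; exact ⟨Or.inl hw, fun h => hy (h ▸ hw)⟩
        · rintro ⟨h1 | h1, h2⟩
          · exact h1
          · exact absurd h1 h2
      rw [this]
      exact h.isGδ.inter isOpen_compl_singleton.isGδ
    · have : Kᶜ = (K ∪ {y})ᶜ ∪ {y} := by
        ext w
        simp only [mem_union, mem_singleton_iff, mem_compl_iff]
        constructor
        · intro hw
          by_cases h1 : w = y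
          · exact Or.inr h1
          · exact Or.inl fun h2 => h2.elim hw h1
        · rintro (h1 | rfl)
          · exact fun h2 => h1 (Or.inl h2)
          · exact hy
      rw [this]
      exact h.isOpen_compl.isGδ.union isClosed_singleton.isGδ

/-- disjoint G-delta sets in a Polish space have an empty derivative -/
lemma exists_D_empty [CompleteSpace X] [SecondCountableTopology X] {B C : Set X} (hB : IsGδ B)
    (hC : IsGδ C) (hBC : B ∩ C = ∅) : ∃ θ, D B C θ = ∅ := by
  have hstab : ∃ θ, D B C θ ⊆ D B C (θ + 1) := by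
    by_contra h
    push Not at h
    have h1 : ∀ θ : Ordinal.{0}, ∃ U : TopologicalSpace.countableBasis X,
        (U.1 ∩ D B C θ).Nonempty ∧ U.1 ∩ D B C (θ + 1) = ∅ := by
      intro θ
      obtain ⟨x, hx1, hx2⟩ := not_subset.mp (h θ)
      obtain ⟨U, hU, hxU, hU2⟩ := (TopologicalSpace.isBasis_countableBasis X).exists_subset_of_mem_open
        (mem_compl hx2) (isClosed_D B C (θ + 1)).isOpen_compl
      exact ⟨⟨U, hU⟩, ⟨x, hxU, hx1⟩, eq_empty_of_forall_notMem fun w hw => hU2 hw.1 hw.2⟩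
    choose U hU1 hU2 using h1
    have key : ∀ a b : Ordinal.{0}, a < b → U a ≠ U b := by
      intro a b hab h
      obtain ⟨w, hw1, hw2⟩ := hU1 b
      have : w ∈ (U a).1 ∩ D B C (a + 1) :=
        ⟨h ▸ hw1, D_anti B C (Order.add_one_le_of_lt hab) hw2⟩
      rw [hU2] at this
      exact notMem_empty w this
    refine not_injective_of_ordinal U fun a b hab => ?_
    rcases lt_trichotomy a b with h | h | h
    · exact absurd hab (key a b h)
    · exact h
    · exact absurd hab.symm (key b a h)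
  obtain ⟨θ, hθ⟩ := hstab
  refine ⟨θ, ?_⟩
  by_contra hne
  set F := D B C θ with hF
  have : CompleteSpace F := (isClosed_D B C θ).completeSpace_coe
  have : Nonempty F := (nonempty_iff_ne_empty.mpr hne).to_subtype
  have dense : ∀ E : Set X, F ⊆ closure (F ∩ E) → Dense ((↑) ⁻¹' E : Set F) := by
    intro E hE
    rw [Subtype.dense_iff]
    rwa [Subtype.image_preimage_coe]
  have d1 := dense B fun x hx => (mem_D_succ.mp (hθ hx)).1
  have d2 := dense C fun x hx => (mem_D_succ.mp (hθ hx)).2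
  have d3 := Dense.inter_of_Gδ (hB.preimage continuous_subtype_val)
    (hC.preimage continuous_subtype_val) d1 d2
  obtain ⟨x, hx⟩ := d3.nonempty
  have : (x : X) ∈ B ∩ C := hx
  rw [hBC] at this
  exact notMem_empty _ this

lemma transDiff_isGδ {l : Ordinal.{0}} (hl : l < Ordinal.omega 1) {F : Ordinal.{0} → Set X}
    (h : IsContSeq l F) : IsGδ (transDiff l F) ∧ IsGδ (transDiff l F)ᶜ := by
  have hlayer : ∀ κ, IsGδ (F κ \ F (κ + 1))ᶜ := by
    intro κ
    rw [compl_sdiff]
    exact (h.1 _).isGδ.union (h.1 _).isOpen_compl.isGδ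
  constructor
  · have : transDiff l F =
        ⋂ κ ∈ {κ | κ < l ∧ ¬ ∃ θ : Ordinal.{0}, κ = 2 * θ}, (F κ \ F (κ + 1))ᶜ := by
      ext x
      simp only [transDiff, mem_iUnion, mem_iInter, mem_ofPred_eq, mem_compl_iff]
      constructor
      · rintro ⟨η, -, hη, hx⟩ κ hκ hx2
        exact hκ.2 (layer_unique h.2.1 hx hx2 ▸ hη)
      · intro hx
        obtain ⟨κ, hκ, hx2⟩ := h.exists_layer x
        refine ⟨κ, hκ, ?_, hx2⟩
        by_contra h3
        exact hx κ ⟨hκ, h3⟩ hx2
    rw [this]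
    exact IsGδ.biInter ((countable_Iio hl).mono fun κ hκ => hκ.1) fun κ _ => hlayer κ
  · have : (transDiff l F)ᶜ =
        ⋂ κ ∈ {κ | κ < l ∧ ∃ θ : Ordinal.{0}, κ = 2 * θ}, (F κ \ F (κ + 1))ᶜ := by
      ext x
      simp only [transDiff, mem_iUnion, mem_iInter, mem_ofPred_eq, mem_compl_iff, not_exists]
      exact ⟨fun hx κ hκ => hx κ hκ.1 hκ.2 |> fun h => h, fun hx κ h1 h2 => hx κ ⟨h1, h2⟩⟩
    rw [this]
    exact IsGδ.biInter ((countable_Iio hl).mono fun κ hκ => hκ.1) fun κ _ => hlayer κ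

lemma exists_mono_closed {A : Set X} (hA : IsGδ Aᶜ) :
    ∃ C : ℕ → Set X, (∀ n, IsClosed (C n)) ∧ Monotone C ∧ (∀ n, C n ⊆ A) ∧ ∀ x ∈ A, ∃ n, x ∈ C n := by
  obtain ⟨U, hU1, hU2⟩ := isGδ_iff_eq_iInter_nat.mp hA
  refine ⟨fun n => ⋃ i ∈ Finset.range (n + 1), (U i)ᶜ,
    fun n => isClosed_biUnion_finset fun i _ => (hU1 i).isClosed_compl, fun a b hab => ?_,
    fun n => iUnion₂_subset fun i _ x hx => ?_, fun x hx => ?_⟩
  · exact biUnion_subset_biUnion_left fun i hi => by
      simp only [Finset.coe_range, mem_Iio] at hi ⊢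
      omega
  · by_contra h
    have : x ∈ Aᶜ := h
    rw [hU2] at this
    exact hx (mem_iInter.mp this i)
  · have : x ∉ Aᶜ := fun h => h hx
    rw [hU2, mem_iInter] at this
    push Not at this
    obtain ⟨i, hi⟩ := this
    exact ⟨i, mem_iUnion₂.mpr ⟨i, Finset.mem_range.mpr (Nat.lt_succ_self i), hi⟩⟩

lemma bb1_indicator {A : Set X} (h1 : IsGδ A) (h2 : IsGδ Aᶜ) :
    BoundedBaireOne (A.indicator fun _ => (1 : ℝ)) := by
  refine ⟨⟨1, fun x => ?_⟩, ?_⟩
  · by_cases hx : x ∈ A <;> simp [hx]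
  obtain ⟨C, hC1, hC2, hC3, hC4⟩ := exists_mono_closed h2
  obtain ⟨E, hE1, hE2, hE3, hE4⟩ := exists_mono_closed (A := Aᶜ) (by rwa [compl_compl])
  have : ∀ n, ∃ g : C(X, ℝ), EqOn g 0 (E n) ∧ EqOn g 1 (C n) ∧ ∀ x, g x ∈ Icc (0 : ℝ) 1 := fun n =>
    exists_continuous_zero_one_of_isClosed (hE1 n) (hC1 n)
      (disjoint_left.mpr fun x hx hx2 => hE3 n hx (hC3 n hx2))
  choose g hg1 hg2 _ using this
  refine ⟨fun n => g n, fun n => (g n).continuous, fun x => ?_⟩
  by_cases hx : x ∈ A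
  · obtain ⟨N, hN⟩ := hC4 x hx
    rw [indicator_of_mem hx]
    refine tendsto_const_nhds.congr' ?_
    filter_upwards [eventually_ge_atTop N] with n hn
    exact (hg2 n (hC2 hn hN)).symm
  · obtain ⟨N, hN⟩ := hE4 x hx
    rw [indicator_of_notMem hx]
    refine tendsto_const_nhds.congr' ?_
    filter_upwards [eventually_ge_atTop N] with n hn
    exact (hg1 n (hE2 hn hN)).symm

end metric

section top
variable {X : Type*} [TopologicalSpace X]

lemma BoundedBaireOne.add {f g : X → ℝ} (hf : BoundedBaireOne f) (hg : BoundedBaireOne g) :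
    BoundedBaireOne (f + g) := by
  obtain ⟨⟨M, hM⟩, a, ha1, ha2⟩ := hf
  obtain ⟨⟨N, hN⟩, b, hb1, hb2⟩ := hg
  exact ⟨⟨M + N, fun x => (abs_add_le _ _).trans (add_le_add (hM x) (hN x))⟩,
    fun n => a n + b n, fun n => (ha1 n).add (hb1 n), fun x => (ha2 x).add (hb2 x)⟩

lemma BoundedBaireOne.comp {f : X → ℝ} (hf : BoundedBaireOne f) {h : ℝ → ℝ} {K : NNReal}
    (hh : LipschitzWith K h) : BoundedBaireOne (h ∘ f) := by
  obtain ⟨⟨M, hM⟩, a, ha1, ha2⟩ := hf
  refine ⟨⟨K * M + |h 0|, fun x => ?_⟩, fun n => h ∘ a n, fun n => hh.continuous.comp (ha1 n),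
    fun x => (hh.continuous.tendsto _).comp (ha2 x)⟩
  have h1 := hh.dist_le_mul (f x) 0
  rw [Real.dist_eq, Real.dist_eq, _root_.sub_zero] at h1
  have h2 : (K : ℝ) * |f x| ≤ K * M := mul_le_mul_of_nonneg_left (hM x) K.2
  have h3 := abs_add_le (h (f x) - h 0) (h 0)
  rw [sub_add_cancel] at h3
  simp only [Function.comp]
  linarith

lemma BoundedBaireOne.smul {f : X → ℝ} (hf : BoundedBaireOne f) (c : ℝ) :
    BoundedBaireOne (c • f) := by
  obtain ⟨⟨M, hM⟩, a, ha1, ha2⟩ := hf
  refine ⟨⟨|c| * M, fun x => ?_⟩, fun n => c • a n, fun n => (ha1 n).const_smul c,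
    fun x => (ha2 x).const_smul c⟩
  rw [Pi.smul_apply, _root_.smul_eq_mul, abs_mul]
  exact mul_le_mul_of_nonneg_left (hM x) (abs_nonneg c)

lemma BoundedBaireOne.isGδ_le {f : X → ℝ} (hf : BoundedBaireOne f) (p : ℝ) :
    IsGδ {x | f x ≤ p} := by
  obtain ⟨-, a, ha1, ha2⟩ := hf
  have : {x | f x ≤ p} = ⋂ k : ℕ × ℕ, ⋃ n ≥ k.2, {x | a n x < p + 1 / ((k.1 : ℝ) + 1)} := by
    ext x
    simp only [mem_ofPred_eq, mem_iInter, mem_iUnion]
    constructor
    · intro hx k
      have h1 : f x < p + 1 / ((k.1 : ℝ) + 1) := by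
        have : 0 < 1 / ((k.1 : ℝ) + 1) := by positivity
        linarith
      obtain ⟨n, hn1, hn2⟩ := (((ha2 x).eventually (gt_mem_nhds h1)).and
        (eventually_ge_atTop k.2)).exists
      exact ⟨n, hn2, hn1⟩
    · intro hx
      by_contra h
      push Not at h
      obtain ⟨k, hk⟩ := exists_nat_one_div_lt (sub_pos.mpr h)
      have h1 : p + 1 / ((k : ℝ) + 1) < f x := by linarith
      obtain ⟨N, hN⟩ := eventually_atTop.mp ((ha2 x).eventually (lt_mem_nhds h1))
      obtain ⟨n, hn1, hn2⟩ := hx (k, N)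
      exact absurd (hN n hn1) (not_lt.mpr hn2.le)
  rw [this]
  exact IsGδ.iInter_of_isOpen fun k => isOpen_iUnion fun n => isOpen_iUnion fun _ =>
    isOpen_lt (ha1 n) continuous_const

lemma BoundedBaireOne.isGδ_ge {f : X → ℝ} (hf : BoundedBaireOne f) (q : ℝ) :
    IsGδ {x | q ≤ f x} := by
  have := (hf.smul (-1)).isGδ_le (-q)
  simpa using this

end top

end Pool.Agent.P.MP_12cd8a_lc
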